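import Mathlib

set_option autoImplicit false
set_option linter.unusedVariables false
set_option linter.unusedSectionVars false

/-!
Vertices which look alike in corresponding vertex-deleted subgraphs.
-/

namespace Run7.h357.RV

open Finset Classical

variable {V : Type} [Fintype V]

/-- the second part of condition (H), with permutations -/
structure HH (G : SimpleGraph V) (a b : V) (π : V → Equiv.Perm V)
    (τ : {v : V // v ≠ a} ≃ {v : V // v ≠ b}) : Prop where
  root : ∀ i, i ≠ a → π i a = b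
  img : ∀ i (hi : i ≠ a), π i i = (τ ⟨i, hi⟩ : V)
  adj : ∀ i, i ≠ a → ∀ x y, x ≠ i → y ≠ i → (G.Adj (π i x) (π i y) ↔ G.Adj x y)

theorem extend (G : SimpleGraph V) (i j : V)
    (θ : G.induce ({i}ᶜ : Set V) ≃g G.induce ({j}ᶜ : Set V)) :
    ∃ π : Equiv.Perm V, π i = j ∧ ∀ x (hx : x ≠ i), π x = (θ ⟨x, hx⟩ : V) := by
  have hθ : ∀ x (hx : x ≠ i), (θ ⟨x, hx⟩ : V) ≠ j := fun x hx => (θ ⟨x, hx⟩).2
  set g : V → V := fun x => if hx : x = i then j else (θ ⟨x, hx⟩ : V) with hg
  have ginj : Function.Injective g := by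
    intro x y hxy
    simp only [hg] at hxy
    by_cases hx : x = i
    · by_cases hy : y = i
      · rw [hx, hy]
      · rw [dif_pos hx, dif_neg hy] at hxy
        exact absurd hxy.symm (hθ y hy)
    · by_cases hy : y = i
      · rw [dif_neg hx, dif_pos hy] at hxy
        exact absurd hxy (hθ x hx)
      · rw [dif_neg hx, dif_neg hy] at hxy
        have := θ.injective (Subtype.ext hxy)
        exact congrArg Subtype.val this
  refine ⟨Equiv.ofBijective g (Finite.injective_iff_bijective.mp ginj), ?_, ?_⟩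
  · rw [Equiv.ofBijective_apply]
    exact dif_pos rfl
  · intro x hx
    rw [Equiv.ofBijective_apply]
    exact dif_neg hx

theorem exists_HH (G : SimpleGraph V) (a b : V)
    (τ : {v : V // v ≠ a} ≃ {v : V // v ≠ b})
    (h : ∀ (i : V) (hi : i ≠ a),
      ∃ θ : G.induce ({i}ᶜ : Set V) ≃g G.induce ({(τ ⟨i, hi⟩ : V)}ᶜ : Set V),
        ∀ x : ({i}ᶜ : Set V), (x : V) = a → (θ x : V) = b) :
    ∃ π, HH G a b π τ := by
  have key : ∀ i : V, ∃ π : Equiv.Perm V, ∀ hi : i ≠ a, π i = (τ ⟨i, hi⟩ : V) ∧ π a = b ∧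
      ∀ x y, x ≠ i → y ≠ i → (G.Adj (π x) (π y) ↔ G.Adj x y) := by
    intro i
    by_cases hi : i = a
    · exact ⟨1, fun h => absurd hi h⟩
    · obtain ⟨θ, hθ⟩ := h i hi
      obtain ⟨π, h1, h2⟩ := extend G i _ θ
      refine ⟨π, fun _ => ⟨h1, ?_, ?_⟩⟩
      · rw [h2 a (Ne.symm hi)]
        exact hθ ⟨a, Ne.symm hi⟩ rfl
      · intro x y hx hy
        rw [h2 x hx, h2 y hy]
        exact θ.map_rel_iff
  choose π hπ using key
  exact ⟨π, fun i hi => (hπ i hi).2.1, fun i hi => (hπ i hi).1, fun i hi => (hπ i hi).2.2⟩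

/-- adjacency as a truth value -/
noncomputable def A (G : SimpleGraph V) (x y : V) : Bool := decide (G.Adj x y)

theorem A_comm (G : SimpleGraph V) (x y : V) : A G x y = A G y x := by
  unfold A
  exact decide_eq_decide.mpr ⟨fun h => h.symm, fun h => h.symm⟩

theorem A_eq {G : SimpleGraph V} {x y x' y' : V} : A G x y = A G x' y' ↔
    (G.Adj x y ↔ G.Adj x' y') := by
  unfold A
  exact decide_eq_decide

theorem HH.A_eq {G : SimpleGraph V} {a b : V} {π : V → Equiv.Perm V}
    {τ : {v : V // v ≠ a} ≃ {v : V // v ≠ b}} (h : HH G a b π τ) {i : V} (hi : i ≠ a) {x y : V}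
    (hx : x ≠ i) (hy : y ≠ i) : A G (π i x) (π i y) = A G x y :=
  Run7.h357.RV.A_eq.mpr (h.adj i hi x y hx hy)

/-- the vertices which spoil the rule -/
noncomputable def D (G : SimpleGraph V) (F : Bool → Bool) (v u : V) : Finset V :=
  univ.filter (fun w => w ≠ v ∧ w ≠ u ∧ A G w u ≠ F (A G w v))

noncomputable def U (G : SimpleGraph V) (ε : Bool) (v : V) : Finset V :=
  univ.filter (fun u => u ≠ v ∧ A G u v = ε)

noncomputable def m (G : SimpleGraph V) (F : Bool → Bool) (ε : Bool) (v : V) (j : ℕ) : ℕ :=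
  ((U G ε v).filter (fun u => (D G F v u).card = j)).card

noncomputable def c (G : SimpleGraph V) (F : Bool → Bool) (ε : Bool) (j : ℕ) (v i : V) : ℕ :=
  ((U G ε v).filter (fun u => u ≠ i ∧ ((D G F v u).erase i).card = j)).card

theorem mem_D {G : SimpleGraph V} {F : Bool → Bool} {v u w : V} :
    w ∈ D G F v u ↔ w ≠ v ∧ w ≠ u ∧ A G w u ≠ F (A G w v) := by
  unfold D
  rw [mem_filter]
  exact ⟨fun h => h.2, fun h => ⟨mem_univ _, h⟩⟩

theorem mem_U {G : SimpleGraph V} {ε : Bool} {v u : V} :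
    u ∈ U G ε v ↔ u ≠ v ∧ A G u v = ε := by
  unfold U
  rw [mem_filter]
  exact ⟨fun h => h.2, fun h => ⟨mem_univ _, h⟩⟩

theorem root_iff {G : SimpleGraph V} {a b : V} {π : V → Equiv.Perm V}
    {τ : {v : V // v ≠ a} ≃ {v : V // v ≠ b}} (h : HH G a b π τ) {i : V} (hi : i ≠ a) (x : V) :
    π i x = b ↔ x = a := by
  rw [← h.root i hi]
  exact (π i).injective.eq_iff

theorem D_map {G : SimpleGraph V} {a b : V} {π : V → Equiv.Perm V}
    {τ : {v : V // v ≠ a} ≃ {v : V // v ≠ b}} (h : HH G a b π τ) (F : Bool → Bool)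
    {i : V} (hi : i ≠ a) {u : V} (hui : u ≠ i) (hua : u ≠ a) :
    (D G F b (π i u)).erase (π i i) = ((D G F a u).erase i).image (π i) := by
  have hb := root_iff h hi
  ext w
  obtain ⟨w, rfl⟩ := (π i).surjective w
  rw [mem_erase, mem_D, mem_image]
  constructor
  · rintro ⟨h1, h2, h3, h4⟩
    have hwi : w ≠ i := fun e => h1 (by rw [e])
    refine ⟨w, mem_erase.mpr ⟨hwi, mem_D.mpr ⟨fun e => h2 ((hb w).mpr e),
      fun e => h3 (by rw [e]), ?_⟩⟩, rfl⟩
    rw [h.A_eq hi hwi hui] at h4
    rw [← h.root i hi, h.A_eq hi hwi (Ne.symm hi)] at h4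
    exact h4
  · rintro ⟨w', hw', he⟩
    rw [(π i).injective.eq_iff] at he
    subst he
    rw [mem_erase, mem_D] at hw'
    obtain ⟨h1, h2, h3, h4⟩ := hw'
    refine ⟨fun e => h1 ((π i).injective e), fun e => h2 ((hb _).mp e),
      fun e => h3 ((π i).injective e), ?_⟩
    rw [h.A_eq hi h1 hui, ← h.root i hi, h.A_eq hi h1 (Ne.symm hi)]
    exact h4

theorem D_card {G : SimpleGraph V} {a b : V} {π : V → Equiv.Perm V}
    {τ : {v : V // v ≠ a} ≃ {v : V // v ≠ b}} (h : HH G a b π τ) (F : Bool → Bool)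
    {i : V} (hi : i ≠ a) {u : V} (hui : u ≠ i) (hua : u ≠ a) :
    ((D G F b (π i u)).erase (π i i)).card = ((D G F a u).erase i).card := by
  rw [D_map h F hi hui hua, card_image_of_injective _ (π i).injective]

theorem c_eq {G : SimpleGraph V} {a b : V} {π : V → Equiv.Perm V}
    {τ : {v : V // v ≠ a} ≃ {v : V // v ≠ b}} (h : HH G a b π τ) (F : Bool → Bool) (ε : Bool)
    (j : ℕ) {i : V} (hi : i ≠ a) : c G F ε j a i = c G F ε j b (π i i) := by
  have hb := root_iff h hi
  unfold c
  apply card_bij (fun u _ => π i u)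
  · intro u hu
    rw [mem_filter, mem_U] at hu ⊢
    obtain ⟨⟨h1, h2⟩, h3, h4⟩ := hu
    refine ⟨⟨fun e => h1 ((hb u).mp e), ?_⟩, fun e => h3 ((π i).injective e), ?_⟩
    · rw [← h.root i hi, h.A_eq hi h3 (Ne.symm hi)]
      exact h2
    · rw [D_card h F hi h3 h1]
      exact h4
  · intro u _ u' _ he
    exact (π i).injective he
  · intro w hw
    obtain ⟨u, rfl⟩ := (π i).surjective w
    rw [mem_filter, mem_U] at hw
    obtain ⟨⟨h1, h2⟩, h3, h4⟩ := hw
    have hui : u ≠ i := fun e => h3 (by rw [e])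
    have hua : u ≠ a := fun e => h1 ((hb u).mpr e)
    refine ⟨u, ?_, rfl⟩
    rw [mem_filter, mem_U]
    refine ⟨⟨hua, ?_⟩, hui, ?_⟩
    · rw [← h.root i hi, h.A_eq hi hui (Ne.symm hi)] at h2
      exact h2
    · rw [D_card h F hi hui hua] at h4
      exact h4

theorem inner (E : Finset V) (v u : V) (huv : u ≠ v) (hv : v ∉ E) (hu : u ∉ E) (j : ℕ) :
    (univ.filter (fun i => i ≠ v ∧ u ≠ i ∧ (E.erase i).card = j)).card =
      (if E.card = j then Fintype.card V - 2 - j else 0) +
        (if E.card = j + 1 then j + 1 else 0) := by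
  by_cases h1 : E.card = j
  · have h2 : ¬ E.card = j + 1 := by omega
    rw [if_pos h1, if_neg h2, add_zero]
    have : univ.filter (fun i => i ≠ v ∧ u ≠ i ∧ (E.erase i).card = j) =
        univ \ (insert v (insert u E)) := by
      ext i
      rw [mem_filter, mem_sdiff, mem_insert, mem_insert]
      constructor
      · rintro ⟨_, g1, g2, g3⟩
        refine ⟨mem_univ _, ?_⟩
        rintro (e | e | e)
        · exact g1 e
        · exact g2 e.symm
        · rw [card_erase_of_mem e] at g3
          have := card_pos.mpr ⟨i, e⟩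
          omega
      · rintro ⟨_, g⟩
        push Not at g
        refine ⟨mem_univ _, g.1, fun e => g.2.1 e.symm, ?_⟩
        rw [erase_eq_of_notMem g.2.2]
        exact h1
    rw [this, card_sdiff_of_subset (subset_univ _), card_insert_of_notMem, card_insert_of_notMem hu,
      card_univ, h1]
    · omega
    · rw [mem_insert]
      rintro (e | e)
      · exact huv e.symm
      · exact hv e
  · rw [if_neg h1, zero_add]
    by_cases h2 : E.card = j + 1
    · rw [if_pos h2]
      have : univ.filter (fun i => i ≠ v ∧ u ≠ i ∧ (E.erase i).card = j) = E := by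
        ext i
        rw [mem_filter]
        constructor
        · rintro ⟨_, g1, g2, g3⟩
          by_contra hi
          rw [erase_eq_of_notMem hi] at g3
          exact h1 g3
        · intro hi
          refine ⟨mem_univ _, fun e => hv (e ▸ hi), fun e => hu (e ▸ hi), ?_⟩
          rw [card_erase_of_mem hi]
          omega
      rw [this, h2]
    · rw [if_neg h2, card_eq_zero, filter_eq_empty_iff]
      rintro i _ ⟨g1, g2, g3⟩
      by_cases hi : i ∈ E
      · rw [card_erase_of_mem hi] at g3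
        have := card_pos.mpr ⟨i, hi⟩
        omega
      · rw [erase_eq_of_notMem hi] at g3
        exact h1 g3

theorem total (G : SimpleGraph V) (F : Bool → Bool) (ε : Bool) (j : ℕ) (v : V) :
    ∑ i : {i : V // i ≠ v}, c G F ε j v i =
      (Fintype.card V - 2 - j) * m G F ε v j + (j + 1) * m G F ε v (j + 1) := by
  rw [← Finset.sum_subtype (univ.filter (fun i => i ≠ v)) (by intro x; simp)
    (fun i => c G F ε j v i)]
  have h1 : ∀ i, c G F ε j v i = ∑ u ∈ U G ε v,
      if u ≠ i ∧ ((D G F v u).erase i).card = j then 1 else 0 := by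
    intro i
    unfold c
    rw [card_filter]
  simp_rw [h1]
  rw [sum_comm]
  have h2 : ∀ u ∈ U G ε v, (∑ i ∈ univ.filter (fun i => i ≠ v),
      if u ≠ i ∧ ((D G F v u).erase i).card = j then 1 else 0) =
      (if (D G F v u).card = j then Fintype.card V - 2 - j else 0) +
        (if (D G F v u).card = j + 1 then j + 1 else 0) := by
    intro u hu
    rw [mem_U] at hu
    rw [← inner (D G F v u) v u hu.1 (fun h => (mem_D.mp h).1 rfl) (fun h => (mem_D.mp h).2.1 rfl) j,
      ← card_filter, filter_filter]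
  rw [sum_congr rfl h2, sum_add_distrib]
  unfold m
  rw [card_filter, card_filter, mul_sum, mul_sum]
  congr 1
  · apply sum_congr rfl
    intro u _
    split_ifs <;> simp
  · apply sum_congr rfl
    intro u _
    split_ifs <;> simp

theorem arith {N k k' p p' q q' : ℕ} (hN : 4 ≤ N) (h0 : N * k + p = N * k' + p')
    (h1 : (N - 1) * p + 2 * q = (N - 1) * p' + 2 * q') (h2 : k + p + q ≤ N + 1)
    (h3 : k' + p' + q' ≤ N + 1) : k ≤ k' := by
  by_contra hlt
  obtain ⟨d, hd⟩ : ∃ d, k = k' + 1 + d := ⟨k - (k' + 1), by omega⟩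
  subst hd
  obtain ⟨M, rfl⟩ : ∃ M, N = M + 1 := ⟨N - 1, by omega⟩
  have e1 : p' = p + (M + 1) * (1 + d) := by
    have : (M + 1) * (k' + 1 + d) = (M + 1) * k' + (M + 1) * (1 + d) := by ring
    omega
  have e2 : M + 1 ≤ (M + 1) * (1 + d) := by nlinarith
  have e3 : (M + 1 - 1) * p' = M * p + M * ((M + 1) * (1 + d)) := by
    rw [e1]; simp; ring
  have e4 : (M + 1 - 1) * p = M * p := by simp
  have e5 : M * (M + 1) ≤ M * ((M + 1) * (1 + d)) := Nat.mul_le_mul_left _ e2
  have e6 : M * (M + 1) ≤ 2 * q := by omega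
  nlinarith

theorem sum3 (G : SimpleGraph V) (F : Bool → Bool) (ε : Bool) (v : V) :
    m G F ε v 0 + m G F ε v 1 + m G F ε v 2 ≤ Fintype.card V - 1 := by
  unfold m
  rw [← card_union_of_disjoint, ← card_union_of_disjoint]
  · refine (card_le_card (t := univ.erase v) ?_).trans ?_
    · intro u hu
      rw [mem_erase]
      refine ⟨?_, mem_univ _⟩
      rw [mem_union, mem_union, mem_filter, mem_filter, mem_filter] at hu
      rcases hu with (h | h) | h
      · exact (mem_U.mp h.1).1
      · exact (mem_U.mp h.1).1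
      · exact (mem_U.mp h.1).1
    · rw [card_erase_of_mem (mem_univ _), card_univ]
  · rw [disjoint_left]
    intro u hu hu'
    rw [mem_union, mem_filter, mem_filter] at hu
    rw [mem_filter] at hu'
    rcases hu with h | h
    · have := h.2.symm.trans hu'.2
      omega
    · have := h.2.symm.trans hu'.2
      omega
  · rw [disjoint_left]
    intro u hu hu'
    rw [mem_filter] at hu hu'
    have := hu.2.symm.trans hu'.2
    omega

theorem c_sum {G : SimpleGraph V} {a b : V} {π : V → Equiv.Perm V}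
    {τ : {v : V // v ≠ a} ≃ {v : V // v ≠ b}} (h : HH G a b π τ) (F : Bool → Bool) (ε : Bool)
    (j : ℕ) : ∑ i : {i : V // i ≠ a}, c G F ε j a i = ∑ i : {i : V // i ≠ b}, c G F ε j b i := by
  rw [← Equiv.sum_comp τ (fun i : {i : V // i ≠ b} => c G F ε j b i)]
  apply sum_congr rfl
  rintro ⟨i, hi⟩ _
  rw [c_eq h F ε j hi, h.img i hi]

theorem m0_eq {G : SimpleGraph V} {a b : V} {π : V → Equiv.Perm V}
    {τ : {v : V // v ≠ a} ≃ {v : V // v ≠ b}} (h : HH G a b π τ) (F : Bool → Bool) (ε : Bool)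
    (hn : 6 ≤ Fintype.card V) : m G F ε a 0 = m G F ε b 0 := by
  have s0 := c_sum h F ε 0
  have s1 := c_sum h F ε 1
  rw [total, total] at s0 s1
  have t1 := sum3 G F ε a
  have t2 := sum3 G F ε b
  obtain ⟨N, hN⟩ : ∃ N, Fintype.card V = N + 2 := ⟨Fintype.card V - 2, by omega⟩
  rw [hN] at s0 s1 t1 t2 hn
  simp only [Nat.add_sub_cancel, Nat.sub_zero, zero_add, one_mul,
    show (1 : ℕ) + 1 = 2 from rfl] at s0 s1
  apply le_antisymm
  · exact arith (by omega) s0 s1 (by omega) (by omega)
  · exact arith (by omega) s0.symm s1.symm (by omega) (by omega)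

theorem m_all {G : SimpleGraph V} {a b : V} {π : V → Equiv.Perm V}
    {τ : {v : V // v ≠ a} ≃ {v : V // v ≠ b}} (h : HH G a b π τ) (F : Bool → Bool) (ε : Bool)
    (hn : 6 ≤ Fintype.card V) (j : ℕ) : m G F ε a j = m G F ε b j := by
  induction j with
  | zero => exact m0_eq h F ε hn
  | succ j ih =>
    have s := c_sum h F ε j
    rw [total, total, ih] at s
    have s' : (j + 1) * m G F ε a (j + 1) = (j + 1) * m G F ε b (j + 1) := by omega
    exact Nat.eq_of_mul_eq_mul_left (Nat.succ_pos j) s'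

theorem card_U (G : SimpleGraph V) (F : Bool → Bool) (ε : Bool) (v : V) :
    (U G ε v).card = ∑ j ∈ range (Fintype.card V + 1), m G F ε v j := by
  unfold m
  apply card_eq_sum_card_fiberwise
  intro u _
  rw [mem_coe, mem_range]
  exact Nat.lt_succ_of_le (card_le_univ _)

/-- a permutation which preserves adjacency is an automorphism -/
theorem toIso {G : SimpleGraph V} {a b : V} (σ : Equiv.Perm V) (hσ : σ a = b)
    (h : ∀ x y, G.Adj (σ x) (σ y) ↔ G.Adj x y) : ∃ φ : G ≃g G, φ a = b :=
  ⟨⟨σ, by intro x y; exact h x y⟩, hσ⟩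

/-- if the neighbours of `i` are carried to the neighbours of the image, we are done -/
theorem finish {G : SimpleGraph V} {a b : V} {π : V → Equiv.Perm V}
    {τ : {v : V // v ≠ a} ≃ {v : V // v ≠ b}} (h : HH G a b π τ) {i : V} (hi : i ≠ a)
    (hn : ∀ x, x ≠ i → (G.Adj (π i x) (π i i) ↔ G.Adj x i)) : ∃ φ : G ≃g G, φ a = b := by
  apply toIso (π i) (h.root i hi)
  intro x y
  by_cases hx : x = i
  · by_cases hy : y = i
    · rw [hx, hy]
      exact ⟨fun h => absurd h (G.loopless.irrefl _), fun h => absurd h (G.loopless.irrefl _)⟩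
    · rw [hx, G.adj_comm, G.adj_comm i y]
      exact hn y hy
  · by_cases hy : y = i
    · rw [hy]; exact hn x hx
    · exact h.adj i hi x y hx hy

theorem mate {G : SimpleGraph V} {a b : V} {π : V → Equiv.Perm V}
    {τ : {v : V // v ≠ a} ≃ {v : V // v ≠ b}} (h : HH G a b π τ)
    (hn : 6 ≤ Fintype.card V) {t : V} (hta : t ≠ a)
    (ht : ∀ w w', w ≠ a → w ≠ t → w' ≠ a → w' ≠ t → (G.Adj w a ↔ G.Adj w' a) →
      (G.Adj w t ↔ G.Adj w' t)) : ∃ φ : G ≃g G, φ a = b := by
  -- the rule
  set F : Bool → Bool := fun β => decide (∃ w, w ≠ a ∧ w ≠ t ∧ A G w a = β ∧ A G w t = true) with hF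
  have hFt : ∀ w, w ≠ a → w ≠ t → A G w t = F (A G w a) := by
    intro w hw1 hw2
    by_cases hw : A G w t = true
    · rw [hw]
      symm
      simp only [hF]
      rw [decide_eq_true_iff]
      exact ⟨w, hw1, hw2, rfl, hw⟩
    · rw [Bool.not_eq_true] at hw
      rw [hw]
      symm
      simp only [hF]
      rw [decide_eq_false_iff_not]
      rintro ⟨w', h1, h2, h3, h4⟩
      have := ht w' w h1 h2 hw1 hw2 (A_eq.mp h3)
      rw [← A_eq] at this
      rw [h4, hw] at this
      exact Bool.noConfusion this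
  set ε := A G t a with hε
  have hDt : D G F a t = ∅ := by
    rw [eq_empty_iff_forall_notMem]
    intro w hw
    rw [mem_D] at hw
    exact hw.2.2 (hFt w hw.1 hw.2.1)
  have htU : t ∈ U G ε a := mem_U.mpr ⟨hta, rfl⟩
  have hk := m0_eq h F ε hn
  -- the card at `t`
  have hc1 : c G F ε 0 a t + 1 ≤ m G F ε a 0 := by
    unfold c m
    have hsub : (U G ε a).filter (fun u => u ≠ t ∧ ((D G F a u).erase t).card = 0) ⊆
        ((U G ε a).filter (fun u => (D G F a u).card = 0)).erase t := by
      intro u hu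
      rw [mem_filter] at hu
      rw [mem_erase, mem_filter]
      refine ⟨hu.2.1, hu.1, ?_⟩
      have hu0 := card_eq_zero.mp hu.2.2
      have hua := mem_U.mp hu.1
      have : t ∉ D G F a u := by
        intro hmem
        rw [mem_D] at hmem
        apply hmem.2.2
        rw [A_comm G t u, hFt u hua.1 hu.2.1, hua.2]
      rw [erase_eq_of_notMem this] at hu0
      rw [hu0, card_empty]
    have h1 := card_le_card hsub
    have hmem : t ∈ (U G ε a).filter (fun u => (D G F a u).card = 0) := by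
      rw [mem_filter, hDt]
      exact ⟨htU, card_empty⟩
    rw [card_erase_of_mem hmem] at h1
    have := card_pos.mpr ⟨t, hmem⟩
    omega
  rw [c_eq h F ε 0 hta, hk] at hc1
  -- so the image is a mate of `b`
  have hmate : π t t ∈ U G ε b ∧ D G F b (π t t) = ∅ := by
    by_contra hcon
    have hsub : (U G ε b).filter (fun u => (D G F b u).card = 0) ⊆
        (U G ε b).filter (fun u => u ≠ π t t ∧ ((D G F b u).erase (π t t)).card = 0) := by
      intro u hu
      rw [mem_filter] at hu ⊢
      have hu0 := card_eq_zero.mp hu.2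
      refine ⟨hu.1, fun e => hcon ⟨e ▸ hu.1, e ▸ hu0⟩, ?_⟩
      rw [hu0, erase_empty, card_empty]
    have h1 := card_le_card hsub
    unfold c m at hc1
    omega
  obtain ⟨hm1, hm2⟩ := hmate
  have hm1' := mem_U.mp hm1
  have hrule : ∀ w, w ≠ b → w ≠ π t t → A G w (π t t) = F (A G w b) := by
    intro w h1 h2
    by_contra hne
    have : w ∈ D G F b (π t t) := mem_D.mpr ⟨h1, h2, hne⟩
    rw [hm2] at this
    exact notMem_empty _ this
  apply finish h hta
  intro x hx
  rw [← A_eq]
  by_cases hxa : x = a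
  · rw [hxa, h.root t hta, A_comm, hm1'.2, hε, A_comm]
  · rw [hrule (π t x) (fun e => hxa ((π t).injective (by rw [e, h.root t hta])))
      (fun e => hx ((π t).injective e)), hFt x hxa hx]
    congr 1
    rw [← h.root t hta, h.A_eq hta hx (Ne.symm hta)]

/-! ### degrees -/

/-- the degree -/
noncomputable def dg (G : SimpleGraph V) (x : V) : ℕ := (univ.filter (fun w => G.Adj w x)).card

/-- the degree in the card -/
noncomputable def cd (G : SimpleGraph V) (i x : V) : ℕ :=
  (univ.filter (fun w => w ≠ i ∧ G.Adj w x)).card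

theorem dg_adj {G : SimpleGraph V} {i x : V} (h : G.Adj i x) : dg G x = cd G i x + 1 := by
  unfold dg cd
  have : univ.filter (fun w => G.Adj w x) = insert i (univ.filter (fun w => w ≠ i ∧ G.Adj w x)) := by
    ext w
    rw [mem_insert, mem_filter, mem_filter]
    constructor
    · rintro ⟨_, hw⟩
      by_cases hwi : w = i
      · exact Or.inl hwi
      · exact Or.inr ⟨mem_univ _, hwi, hw⟩
    · rintro (rfl | ⟨_, _, hw⟩)
      · exact ⟨mem_univ _, h⟩
      · exact ⟨mem_univ _, hw⟩
  rw [this, card_insert_of_notMem]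
  rw [mem_filter]
  exact fun hh => hh.2.1 rfl

theorem dg_nadj {G : SimpleGraph V} {i x : V} (h : ¬ G.Adj i x) : dg G x = cd G i x := by
  unfold dg cd
  congr 1
  ext w
  rw [mem_filter, mem_filter]
  constructor
  · rintro ⟨_, hw⟩
    exact ⟨mem_univ _, fun e => h (e ▸ hw), hw⟩
  · rintro ⟨_, _, hw⟩
    exact ⟨mem_univ _, hw⟩

theorem cd_eq {G : SimpleGraph V} {a b : V} {π : V → Equiv.Perm V}
    {τ : {v : V // v ≠ a} ≃ {v : V // v ≠ b}} (h : HH G a b π τ) {i : V} (hi : i ≠ a) {x : V}
    (hx : x ≠ i) : cd G i x = cd G (π i i) (π i x) := by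
  unfold cd
  apply card_bij (fun w _ => π i w)
  · intro w hw
    rw [mem_filter] at hw ⊢
    exact ⟨mem_univ _, fun e => hw.2.1 ((π i).injective e), (h.adj i hi w x hw.2.1 hx).mpr hw.2.2⟩
  · intro w _ w' _ e
    exact (π i).injective e
  · intro w hw
    obtain ⟨w, rfl⟩ := (π i).surjective w
    rw [mem_filter] at hw
    have hwi : w ≠ i := fun e => hw.2.1 (by rw [e])
    exact ⟨w, mem_filter.mpr ⟨mem_univ _, hwi, (h.adj i hi w x hwi hx).mp hw.2.2⟩, rfl⟩

/-- the number of the vertices of degree `d` -/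
noncomputable def Pn (G : SimpleGraph V) (d : ℕ) : ℕ := (univ.filter (fun x => dg G x = d)).card

/-- the number of the neighbours of `i` of degree `d` -/
noncomputable def Nn (G : SimpleGraph V) (i : V) (d : ℕ) : ℕ :=
  (univ.filter (fun x => G.Adj i x ∧ dg G x = d)).card

/-- the number of the other vertices of degree `d` -/
noncomputable def Zn (G : SimpleGraph V) (i : V) (d : ℕ) : ℕ :=
  (univ.filter (fun x => x ≠ i ∧ ¬ G.Adj i x ∧ dg G x = d)).card

/-- the number of the vertices of degree `d` in the card -/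
noncomputable def Cn (G : SimpleGraph V) (i : V) (d : ℕ) : ℕ :=
  (univ.filter (fun x => x ≠ i ∧ cd G i x = d)).card

theorem Pn_eq (G : SimpleGraph V) (i : V) (d : ℕ) :
    Pn G d = Zn G i d + Nn G i d + if dg G i = d then 1 else 0 := by
  have h1 : (univ.filter (fun x => dg G x = d)) =
      ((univ.filter (fun x => x ≠ i ∧ ¬ G.Adj i x ∧ dg G x = d)) ∪
        (univ.filter (fun x => G.Adj i x ∧ dg G x = d))) ∪
        (univ.filter (fun x => x = i ∧ dg G x = d)) := by
    ext x
    simp only [mem_union, mem_filter, mem_univ, true_and]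
    by_cases hx : x = i
    · subst hx
      simp
    · by_cases hadj : G.Adj i x <;> simp [hx, hadj]
  unfold Pn
  rw [h1, card_union_of_disjoint, card_union_of_disjoint]
  · unfold Zn Nn
    congr 1
    split_ifs with h
    · rw [card_eq_one]
      refine ⟨i, ?_⟩
      ext x
      simp only [mem_filter, mem_univ, true_and, mem_singleton]
      exact ⟨fun hx => hx.1, fun hx => ⟨hx, hx ▸ h⟩⟩
    · rw [card_eq_zero, filter_eq_empty_iff]
      rintro x _ ⟨hx, hx'⟩
      exact h (hx ▸ hx')
  · rw [disjoint_left]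
    intro x hx hx'
    rw [mem_filter] at hx hx'
    exact hx.2.2.1 hx'.2.1
  · rw [disjoint_left]
    intro x hx hx'
    rw [mem_union, mem_filter, mem_filter] at hx
    rw [mem_filter] at hx'
    rcases hx with hx | hx
    · exact hx.2.1 hx'.2.1
    · rw [hx'.2.1] at hx
      exact G.loopless.irrefl _ hx.2.1

theorem Cn_eq (G : SimpleGraph V) (i : V) (d : ℕ) : Cn G i d = Zn G i d + Nn G i (d + 1) := by
  have h1 : (univ.filter (fun x => x ≠ i ∧ cd G i x = d)) =
      (univ.filter (fun x => x ≠ i ∧ ¬ G.Adj i x ∧ dg G x = d)) ∪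
        (univ.filter (fun x => G.Adj i x ∧ dg G x = d + 1)) := by
    ext x
    simp only [mem_union, mem_filter, mem_univ, true_and]
    by_cases hx : x = i
    · subst hx
      simp
    · by_cases hadj : G.Adj i x
      · have := dg_adj hadj
        simp only [hx, hadj, ne_eq, not_false_iff, true_and, not_true, false_and, false_or]
        omega
      · have := dg_nadj hadj
        simp only [hx, hadj, ne_eq, not_false_iff, true_and, false_and, or_false]
        omega
  unfold Cn
  rw [h1, card_union_of_disjoint]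
  · rfl
  · rw [disjoint_left]
    intro x hx hx'
    rw [mem_filter] at hx hx'
    exact hx.2.2.1 hx'.2.1

theorem Cn_map {G : SimpleGraph V} {a b : V} {π : V → Equiv.Perm V}
    {τ : {v : V // v ≠ a} ≃ {v : V // v ≠ b}} (h : HH G a b π τ) {i : V} (hi : i ≠ a) (d : ℕ) :
    Cn G i d = Cn G (π i i) d := by
  unfold Cn
  apply card_bij (fun w _ => π i w)
  · intro w hw
    rw [mem_filter] at hw ⊢
    exact ⟨mem_univ _, fun e => hw.2.1 ((π i).injective e), by rw [← cd_eq h hi hw.2.1]; exact hw.2.2⟩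
  · intro w _ w' _ e
    exact (π i).injective e
  · intro w hw
    obtain ⟨w, rfl⟩ := (π i).surjective w
    rw [mem_filter] at hw
    have hwi : w ≠ i := fun e => hw.2.1 (by rw [e])
    exact ⟨w, mem_filter.mpr ⟨mem_univ _, hwi, by rw [cd_eq h hi hwi]; exact hw.2.2⟩, rfl⟩

theorem sum_dg (G : SimpleGraph V) (i : V) :
    ∑ x, dg G x = 2 * dg G i + ∑ x ∈ univ.erase i, cd G i x := by
  rw [← Finset.add_sum_erase _ _ (mem_univ i)]
  have h1 : ∀ x ∈ univ.erase i, dg G x = cd G i x + if G.Adj i x then 1 else 0 := by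
    intro x _
    split_ifs with h
    · exact dg_adj h
    · exact dg_nadj h
  rw [sum_congr rfl h1, sum_add_distrib, ← card_filter]
  have h2 : ((univ.erase i).filter (fun x => G.Adj i x)).card = dg G i := by
    unfold dg
    congr 1
    ext x
    rw [mem_filter, mem_filter, mem_erase]
    constructor
    · rintro ⟨_, h⟩
      exact ⟨mem_univ _, h.symm⟩
    · rintro ⟨_, h⟩
      exact ⟨⟨fun e => G.loopless.irrefl _ (e ▸ h), mem_univ _⟩, h.symm⟩
  rw [h2]
  ring

theorem dg_map {G : SimpleGraph V} {a b : V} {π : V → Equiv.Perm V}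
    {τ : {v : V // v ≠ a} ≃ {v : V // v ≠ b}} (h : HH G a b π τ) {i : V} (hi : i ≠ a) :
    dg G i = dg G (π i i) := by
  have h1 := sum_dg G i
  have h2 := sum_dg G (π i i)
  have h3 : ∑ x ∈ univ.erase i, cd G i x = ∑ x ∈ univ.erase (π i i), cd G (π i i) x := by
    apply sum_bij (fun x _ => π i x)
    · intro x hx
      rw [mem_erase] at hx ⊢
      exact ⟨fun e => hx.1 ((π i).injective e), mem_univ _⟩
    · intro x _ y _ e
      exact (π i).injective e
    · intro x hx
      obtain ⟨x, rfl⟩ := (π i).surjective x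
      rw [mem_erase] at hx
      exact ⟨x, mem_erase.mpr ⟨fun e => hx.1 (by rw [e]), mem_univ _⟩, rfl⟩
    · intro x hx
      rw [mem_erase] at hx
      exact cd_eq h hi hx.1
  omega

theorem Nn_map {G : SimpleGraph V} {a b : V} {π : V → Equiv.Perm V}
    {τ : {v : V // v ≠ a} ≃ {v : V // v ≠ b}} (h : HH G a b π τ) {i : V} (hi : i ≠ a) (d : ℕ) :
    Nn G i d = Nn G (π i i) d := by
  induction d with
  | zero =>
    have : ∀ j, Nn G j 0 = 0 := by
      intro j
      unfold Nn
      rw [card_eq_zero, filter_eq_empty_iff]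
      rintro x _ ⟨h1, h2⟩
      rw [dg_adj h1] at h2
      omega
    rw [this, this]
  | succ d ih =>
    have e1 := Pn_eq G i d
    have e2 := Pn_eq G (π i i) d
    have e3 := Cn_eq G i d
    have e4 := Cn_eq G (π i i) d
    have e5 := Cn_map h hi d
    rw [dg_map h hi] at e1
    omega

theorem degrees {G : SimpleGraph V} {a b : V} {π : V → Equiv.Perm V}
    {τ : {v : V // v ≠ a} ≃ {v : V // v ≠ b}} (h : HH G a b π τ) {i : V} (hi : i ≠ a)
    (hd : ∀ x y, G.Adj i x → ¬ G.Adj i y → y ≠ i → dg G x ≠ dg G y + 1) :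
    ∃ φ : G ≃g G, φ a = b := by
  apply finish h hi
  intro x hx
  rw [G.adj_comm _ (π i i), G.adj_comm x i]
  have hc := cd_eq h hi hx
  have hxj : π i x ≠ π i i := fun e => hx ((π i).injective e)
  constructor
  · intro hadj
    by_contra hnadj
    have e1 := dg_adj hadj
    have e2 := dg_nadj hnadj
    have h1 : 0 < Nn G (π i i) (cd G i x + 1) := by
      unfold Nn
      exact card_pos.mpr ⟨π i x, mem_filter.mpr ⟨mem_univ _, hadj, by rw [e1, hc]⟩⟩
    rw [← Nn_map h hi] at h1
    unfold Nn at h1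
    obtain ⟨x', hx'⟩ := card_pos.mp h1
    rw [mem_filter] at hx'
    exact hd x' x hx'.2.1 hnadj hx (by rw [hx'.2.2, e2])
  · intro hadj
    by_contra hnadj
    have e1 := dg_adj hadj
    have e2 := dg_nadj hnadj
    have h1 : 0 < Zn G (π i i) (cd G i x) := by
      unfold Zn
      exact card_pos.mpr ⟨π i x, mem_filter.mpr ⟨mem_univ _, hxj, hnadj, by rw [e2, hc]⟩⟩
    have h2 : Zn G i (cd G i x) = Zn G (π i i) (cd G i x) := by
      have k1 := Pn_eq G i (cd G i x)
      have k2 := Pn_eq G (π i i) (cd G i x)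
      have k3 := Nn_map h hi (cd G i x)
      rw [dg_map h hi] at k1
      omega
    rw [← h2] at h1
    unfold Zn at h1
    obtain ⟨y, hy⟩ := card_pos.mp h1
    rw [mem_filter] at hy
    exact hd x y hadj hy.2.2.1 hy.2.1 (by rw [hy.2.2.2, e1])

/-! ### degrees and the root -/

/-- the rule for the degrees -/
def F0 : Bool → Bool := fun _ => false

theorem mem_D0 {G : SimpleGraph V} {v u w : V} :
    w ∈ D G F0 v u ↔ w ≠ v ∧ G.Adj w u := by
  rw [mem_D]
  unfold F0 A
  constructor
  · rintro ⟨h1, _, h3⟩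
    refine ⟨h1, ?_⟩
    by_contra h
    exact h3 (decide_eq_false h)
  · rintro ⟨h1, h2⟩
    refine ⟨h1, fun e => G.loopless.irrefl _ (e ▸ h2), ?_⟩
    rw [decide_eq_true h2]
    exact fun e => Bool.noConfusion e

theorem A_true {G : SimpleGraph V} {x y : V} : A G x y = true ↔ G.Adj x y := by
  unfold A
  exact decide_eq_true_iff

theorem card_D0 (G : SimpleGraph V) (v u : V) :
    (D G F0 v u).card + (if A G u v = true then 1 else 0) = dg G u := by
  split_ifs with h
  · rw [A_true] at h
    rw [dg_adj h.symm]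
    congr 1
    unfold cd
    congr 1
    ext w
    rw [mem_D0, mem_filter]
    exact ⟨fun h => ⟨mem_univ _, h⟩, fun h => h.2⟩
  · rw [A_true] at h
    rw [dg_nadj (fun hh : G.Adj v u => h hh.symm), add_zero]
    unfold cd
    congr 1
    ext w
    rw [mem_D0, mem_filter]
    exact ⟨fun h => ⟨mem_univ _, h⟩, fun h => h.2⟩

theorem U_true (G : SimpleGraph V) (v : V) : (U G true v).card = dg G v := by
  unfold dg
  congr 1
  ext w
  rw [mem_U, A_true, mem_filter]
  exact ⟨fun h => ⟨mem_univ _, h.2⟩, fun h => ⟨fun e => G.loopless.irrefl _ (e ▸ h.2), h.2⟩⟩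

theorem root_adj {G : SimpleGraph V} {a b : V} {π : V → Equiv.Perm V}
    {τ : {v : V // v ≠ a} ≃ {v : V // v ≠ b}} (h : HH G a b π τ)
    (hn : 6 ≤ Fintype.card V) {i : V} (hi : i ≠ a) : A G i a = A G (π i i) b := by
  have h1 : dg G a = dg G b := by
    rw [← U_true, ← U_true, card_U G F0, card_U G F0]
    exact sum_congr rfl (fun j _ => m_all h F0 true hn j)
  have h2 := cd_eq h hi (Ne.symm hi)
  rw [h.root i hi] at h2
  rw [A_eq]
  constructor
  · intro hadj
    by_contra hnadj
    have e1 := dg_adj hadj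
    have e2 := dg_nadj hnadj
    omega
  · intro hadj
    by_contra hnadj
    have e1 := dg_adj hadj
    have e2 := dg_nadj hnadj
    omega

/-- the number of the neighbours of `i` of a given type -/
noncomputable def Nr (G : SimpleGraph V) (ε : Bool) (v i : V) (j : ℕ) : ℕ :=
  ((U G ε v).filter (fun u => i ∈ D G F0 v u ∧ (D G F0 v u).card = j)).card

/-- the number of the other vertices of a given type -/
noncomputable def Zr (G : SimpleGraph V) (ε : Bool) (v i : V) (j : ℕ) : ℕ :=
  ((U G ε v).filter (fun u => u ≠ i ∧ i ∉ D G F0 v u ∧ (D G F0 v u).card = j)).card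

theorem not_self {G : SimpleGraph V} {v u : V} : u ∉ D G F0 v u := fun h =>
  G.loopless.irrefl _ (mem_D0.mp h).2

theorem m_split (G : SimpleGraph V) (ε : Bool) (v i : V) (j : ℕ) :
    m G F0 ε v j = Zr G ε v i j + Nr G ε v i j +
      if i ∈ U G ε v ∧ (D G F0 v i).card = j then 1 else 0 := by
  have h1 : (U G ε v).filter (fun u => (D G F0 v u).card = j) =
      ((U G ε v).filter (fun u => u ≠ i ∧ i ∉ D G F0 v u ∧ (D G F0 v u).card = j) ∪
        (U G ε v).filter (fun u => i ∈ D G F0 v u ∧ (D G F0 v u).card = j)) ∪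
        (U G ε v).filter (fun u => u = i ∧ (D G F0 v u).card = j) := by
    ext x
    simp only [mem_union, mem_filter]
    by_cases hx : x = i
    · subst hx
      simp [not_self]
    · by_cases hadj : i ∈ D G F0 v x <;> simp [hx, hadj]
  unfold m
  rw [h1, card_union_of_disjoint, card_union_of_disjoint]
  · unfold Zr Nr
    congr 1
    split_ifs with h
    · rw [card_eq_one]
      refine ⟨i, ?_⟩
      ext x
      rw [mem_filter, mem_singleton]
      constructor
      · exact fun hx => hx.2.1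
      · rintro rfl
        exact ⟨h.1, rfl, h.2⟩
    · rw [card_eq_zero, filter_eq_empty_iff]
      rintro x hx ⟨rfl, hx'⟩
      exact h ⟨hx, hx'⟩
  · rw [disjoint_left]
    intro x hx hx'
    rw [mem_filter] at hx hx'
    exact hx.2.2.1 hx'.2.1
  · rw [disjoint_left]
    intro x hx hx'
    rw [mem_union, mem_filter, mem_filter] at hx
    rw [mem_filter] at hx'
    rcases hx with hx | hx
    · exact hx.2.1 hx'.2.1
    · rw [hx'.2.1] at hx
      exact not_self hx.2.1

theorem c_split (G : SimpleGraph V) (ε : Bool) (v i : V) (j : ℕ) :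
    c G F0 ε j v i = Zr G ε v i j + Nr G ε v i (j + 1) := by
  have h1 : (U G ε v).filter (fun u => u ≠ i ∧ ((D G F0 v u).erase i).card = j) =
      (U G ε v).filter (fun u => u ≠ i ∧ i ∉ D G F0 v u ∧ (D G F0 v u).card = j) ∪
        (U G ε v).filter (fun u => i ∈ D G F0 v u ∧ (D G F0 v u).card = j + 1) := by
    ext x
    simp only [mem_union, mem_filter]
    by_cases hx : x = i
    · subst hx
      simp [not_self]
    · by_cases hadj : i ∈ D G F0 v x
      · have h1 := card_erase_of_mem hadj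
        have h2 := card_pos.mpr ⟨i, hadj⟩
        simp only [hx, hadj, ne_eq, not_false_iff, true_and, not_true, false_and, and_false,
          false_or]
        constructor
        · rintro ⟨h3, h4⟩
          exact ⟨h3, by omega⟩
        · rintro ⟨h3, h4⟩
          exact ⟨h3, by omega⟩
      · rw [erase_eq_of_notMem hadj]
        simp only [hx, hadj, ne_eq, not_false_iff, true_and, false_and, and_false, or_false]
  unfold c
  rw [h1, card_union_of_disjoint]
  · rfl
  · rw [disjoint_left]
    intro x hx hx'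
    rw [mem_filter] at hx hx'
    exact hx.2.2.1 hx'.2.1

theorem own_map {G : SimpleGraph V} {a b : V} {π : V → Equiv.Perm V}
    {τ : {v : V // v ≠ a} ≃ {v : V // v ≠ b}} (h : HH G a b π τ)
    (hn : 6 ≤ Fintype.card V) {i : V} (hi : i ≠ a) (ε : Bool) (j : ℕ) :
    (i ∈ U G ε a ∧ (D G F0 a i).card = j) ↔ (π i i ∈ U G ε b ∧ (D G F0 b (π i i)).card = j) := by
  have h1 := root_adj h hn hi
  have h2 := dg_map h hi
  have h3 := card_D0 G a i
  have h4 := card_D0 G b (π i i)
  rw [← h1] at h4
  have h5 : (D G F0 a i).card = (D G F0 b (π i i)).card := by omega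
  have hb : π i i ≠ b := fun e => hi ((root_iff h hi i).mp e)
  rw [mem_U, mem_U, h1, h5]
  exact ⟨fun q => ⟨⟨hb, q.1.2⟩, q.2⟩, fun q => ⟨⟨hi, q.1.2⟩, q.2⟩⟩

theorem Nr_map {G : SimpleGraph V} {a b : V} {π : V → Equiv.Perm V}
    {τ : {v : V // v ≠ a} ≃ {v : V // v ≠ b}} (h : HH G a b π τ)
    (hn : 6 ≤ Fintype.card V) {i : V} (hi : i ≠ a) (ε : Bool) (j : ℕ) :
    Nr G ε a i j = Nr G ε b (π i i) j := by
  induction j with
  | zero =>
    have : ∀ v i, Nr G ε v i 0 = 0 := by
      intro v i
      unfold Nr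
      rw [card_eq_zero, filter_eq_empty_iff]
      rintro x _ ⟨h1, h2⟩
      have := card_pos.mpr ⟨i, h1⟩
      omega
    rw [this, this]
  | succ j ih =>
    have e1 := m_split G ε a i j
    have e2 := m_split G ε b (π i i) j
    have e3 := c_split G ε a i j
    have e4 := c_split G ε b (π i i) j
    have e5 := c_eq h F0 ε j hi
    have e6 := m_all h F0 ε hn j
    rw [if_congr (own_map h hn hi ε j) rfl rfl] at e1
    omega

theorem Zr_map {G : SimpleGraph V} {a b : V} {π : V → Equiv.Perm V}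
    {τ : {v : V // v ≠ a} ≃ {v : V // v ≠ b}} (h : HH G a b π τ)
    (hn : 6 ≤ Fintype.card V) {i : V} (hi : i ≠ a) (ε : Bool) (j : ℕ) :
    Zr G ε a i j = Zr G ε b (π i i) j := by
  have e3 := c_split G ε a i j
  have e4 := c_split G ε b (π i i) j
  have e5 := c_eq h F0 ε j hi
  have e6 := Nr_map h hn hi ε (j + 1)
  omega

theorem refined {G : SimpleGraph V} {a b : V} {π : V → Equiv.Perm V}
    {τ : {v : V // v ≠ a} ≃ {v : V // v ≠ b}} (h : HH G a b π τ)
    (hn : 6 ≤ Fintype.card V) {i : V} (hi : i ≠ a)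
    (hd : ∀ x y, x ≠ a → y ≠ a → G.Adj i x → ¬ G.Adj i y → y ≠ i → (G.Adj x a ↔ G.Adj y a) →
      dg G x ≠ dg G y + 1) :
    ∃ φ : G ≃g G, φ a = b := by
  apply finish h hi
  intro x hx
  by_cases hxa : x = a
  · rw [hxa, h.root i hi, ← A_eq, A_comm G b, A_comm G a]
    exact (root_adj h hn hi).symm
  have hb : π i x ≠ b := fun e => hxa ((root_iff h hi x).mp e)
  have hxj : π i x ≠ π i i := fun e => hx ((π i).injective e)
  have hc := D_card h F0 hi hx hxa
  have hε : A G (π i x) b = A G x a := by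
    rw [← h.root i hi, h.A_eq hi hx (Ne.symm hi)]
  have hxU : x ∈ U G (A G x a) a := mem_U.mpr ⟨hxa, rfl⟩
  have hyU : π i x ∈ U G (A G x a) b := mem_U.mpr ⟨hb, hε⟩
  -- two vertices of the same type
  have hdeg : ∀ x y, x ∈ U G (A G y a) a → (D G F0 a x).card = (D G F0 a y).card + 1 →
      dg G x = dg G y + 1 := by
    intro x y hxy hcard
    rw [mem_U] at hxy
    have k1 := card_D0 G a x
    have k2 := card_D0 G a y
    rw [hxy.2] at k1
    omega
  have hiD : ∀ {v y : V}, i ≠ v → (i ∈ D G F0 v y ↔ G.Adj i y) := fun {v y} hiv =>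
    ⟨fun q => (mem_D0.mp q).2, fun q => mem_D0.mpr ⟨hiv, q⟩⟩
  have hjD : ∀ y, (π i i ∈ D G F0 b y ↔ G.Adj (π i i) y) := fun y =>
    ⟨fun q => (mem_D0.mp q).2, fun q => mem_D0.mpr ⟨fun e => hi ((root_iff h hi i).mp e), q⟩⟩
  rw [G.adj_comm _ (π i i), G.adj_comm x i]
  constructor
  · intro hadj
    by_contra hnadj
    have m1 : π i i ∈ D G F0 b (π i x) := (hjD _).mpr hadj
    have m2 : i ∉ D G F0 a x := fun q => hnadj ((hiD hi).mp q)
    rw [erase_eq_of_notMem m2, card_erase_of_mem m1] at hc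
    have hpos := card_pos.mpr ⟨_, m1⟩
    have h1 : 0 < Nr G (A G x a) b (π i i) ((D G F0 a x).card + 1) := by
      unfold Nr
      exact card_pos.mpr ⟨π i x, mem_filter.mpr ⟨hyU, m1, by omega⟩⟩
    rw [← Nr_map h hn hi] at h1
    unfold Nr at h1
    obtain ⟨x', hx'⟩ := card_pos.mp h1
    rw [mem_filter] at hx'
    have g1 := mem_U.mp hx'.1
    refine hd x' x g1.1 hxa ((hiD hi).mp hx'.2.1) hnadj hx (A_eq.mp g1.2) ?_
    exact hdeg x' x hx'.1 hx'.2.2
  · intro hadj
    by_contra hnadj
    have m1 : i ∈ D G F0 a x := (hiD hi).mpr hadj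
    have m2 : π i i ∉ D G F0 b (π i x) := fun q => hnadj ((hjD _).mp q)
    rw [erase_eq_of_notMem m2, card_erase_of_mem m1] at hc
    have hpos := card_pos.mpr ⟨_, m1⟩
    have h1 : 0 < Zr G (A G x a) b (π i i) ((D G F0 a x).card - 1) := by
      unfold Zr
      exact card_pos.mpr ⟨π i x, mem_filter.mpr ⟨hyU, hxj, m2, hc⟩⟩
    rw [← Zr_map h hn hi] at h1
    unfold Zr at h1
    obtain ⟨y, hy⟩ := card_pos.mp h1
    rw [mem_filter] at hy
    have g1 := mem_U.mp hy.1
    refine hd x y hxa g1.1 hadj (fun q => hy.2.2.1 ((hiD hi).mpr q)) hy.2.1 (A_eq.mp g1.2.symm) ?_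
    refine hdeg x y ?_ (by omega)
    rw [g1.2]
    exact hxU

/-! ### components -/

/-- the component -/
noncomputable def K (G : SimpleGraph V) (v : V) : Finset V :=
  univ.filter (fun u => Relation.ReflTransGen G.Adj v u)

/-- the component in the card -/
noncomputable def Kc (G : SimpleGraph V) (i v : V) : Finset V :=
  univ.filter (fun u => Relation.ReflTransGen (fun x y => G.Adj x y ∧ x ≠ i ∧ y ≠ i) v u)

theorem mem_K {G : SimpleGraph V} {v u : V} : u ∈ K G v ↔ Relation.ReflTransGen G.Adj v u := by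
  unfold K
  rw [mem_filter]
  exact ⟨fun h => h.2, fun h => ⟨mem_univ _, h⟩⟩

theorem mem_Kc {G : SimpleGraph V} {i v u : V} :
    u ∈ Kc G i v ↔ Relation.ReflTransGen (fun x y => G.Adj x y ∧ x ≠ i ∧ y ≠ i) v u := by
  unfold Kc
  rw [mem_filter]
  exact ⟨fun h => h.2, fun h => ⟨mem_univ _, h⟩⟩

theorem Kc_sub (G : SimpleGraph V) (i v : V) : Kc G i v ⊆ K G v := by
  intro u hu
  rw [mem_Kc] at hu
  rw [mem_K]
  induction hu with
  | refl => exact Relation.ReflTransGen.refl
  | tail _ h ih => exact ih.tail h.1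

theorem Kc_eq {G : SimpleGraph V} {i v : V} (h : i ∉ K G v) : Kc G i v = K G v := by
  apply Finset.Subset.antisymm (Kc_sub G i v)
  intro u hu
  rw [mem_K] at hu
  rw [mem_Kc]
  induction hu with
  | refl => exact Relation.ReflTransGen.refl
  | @tail y z hy hyz ih =>
    refine ih.tail ⟨hyz, ?_, ?_⟩
    · rintro rfl
      exact h (mem_K.mpr hy)
    · rintro rfl
      exact h (mem_K.mpr (hy.tail hyz))

theorem not_mem_Kc {G : SimpleGraph V} {i v : V} (hv : v ≠ i) : i ∉ Kc G i v := by
  intro h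
  rw [mem_Kc] at h
  cases h with
  | refl => exact hv rfl
  | tail _ h2 => exact h2.2.2 rfl

theorem Kc_lt {G : SimpleGraph V} {i v : V} (hv : v ≠ i) (h : i ∈ K G v) :
    (Kc G i v).card < (K G v).card :=
  card_lt_card ⟨Kc_sub G i v, fun hs => not_mem_Kc hv (hs h)⟩

theorem Kc_map {G : SimpleGraph V} {a b : V} {π : V → Equiv.Perm V}
    {τ : {v : V // v ≠ a} ≃ {v : V // v ≠ b}} (h : HH G a b π τ) {i : V} (hi : i ≠ a) (u : V) :
    π i u ∈ Kc G (π i i) b ↔ u ∈ Kc G i a := by
  rw [mem_Kc, mem_Kc]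
  constructor
  · intro hu
    have key : ∀ w, Relation.ReflTransGen
        (fun x y => G.Adj x y ∧ x ≠ π i i ∧ y ≠ π i i) b w →
        Relation.ReflTransGen (fun x y => G.Adj x y ∧ x ≠ i ∧ y ≠ i) a ((π i).symm w) := by
      intro w hw
      induction hw with
      | refl =>
        rw [← h.root i hi, Equiv.symm_apply_apply]
      | @tail y z hy hyz ih =>
        obtain ⟨y, rfl⟩ := (π i).surjective y
        obtain ⟨z, rfl⟩ := (π i).surjective z
        rw [Equiv.symm_apply_apply] at ih ⊢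
        have hyi : y ≠ i := fun e => hyz.2.1 (by rw [e])
        have hzi : z ≠ i := fun e => hyz.2.2 (by rw [e])
        exact ih.tail ⟨(h.adj i hi y z hyi hzi).mp hyz.1, hyi, hzi⟩
    have := key _ hu
    rw [Equiv.symm_apply_apply] at this
    exact this
  · intro hu
    induction hu with
    | refl => rw [h.root i hi]
    | @tail y z hy hyz ih =>
      exact ih.tail ⟨(h.adj i hi y z hyz.2.1 hyz.2.2).mpr hyz.1,
        fun e => hyz.2.1 ((π i).injective e), fun e => hyz.2.2 ((π i).injective e)⟩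

theorem Kc_card {G : SimpleGraph V} {a b : V} {π : V → Equiv.Perm V}
    {τ : {v : V // v ≠ a} ≃ {v : V // v ≠ b}} (h : HH G a b π τ) {i : V} (hi : i ≠ a) :
    (Kc G i a).card = (Kc G (π i i) b).card := by
  apply card_bij (fun u _ => π i u)
  · intro u hu
    exact (Kc_map h hi u).mpr hu
  · intro u _ u' _ e
    exact (π i).injective e
  · intro w hw
    obtain ⟨w, rfl⟩ := (π i).surjective w
    exact ⟨w, (Kc_map h hi w).mp hw, rfl⟩

theorem K_closed {G : SimpleGraph V} {v x y : V} (h : G.Adj x y) : x ∈ K G v ↔ y ∈ K G v := by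
  rw [mem_K, mem_K]
  exact ⟨fun hx => hx.tail h, fun hy => hy.tail h.symm⟩

theorem K_symm {G : SimpleGraph V} {x y : V} (h : Relation.ReflTransGen G.Adj x y) :
    Relation.ReflTransGen G.Adj y x := by
  induction h with
  | refl => exact Relation.ReflTransGen.refl
  | tail _ h2 ih => exact Relation.ReflTransGen.head h2.symm ih

theorem K_disj {G : SimpleGraph V} {a b x : V} (ha : x ∈ K G a) (hb : x ∈ K G b) :
    K G a = K G b := by
  rw [mem_K] at ha hb
  ext w
  rw [mem_K, mem_K]
  exact ⟨fun h => (hb.trans (K_symm ha)).trans h, fun h => (ha.trans (K_symm hb)).trans h⟩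

theorem disconnected {G : SimpleGraph V} {a b : V} {π : V → Equiv.Perm V}
    {τ : {v : V // v ≠ a} ≃ {v : V // v ≠ b}} (h : HH G a b π τ)
    (hG : ∃ x y, ¬ Relation.ReflTransGen G.Adj x y) : ∃ φ : G ≃g G, φ a = b := by
  have hex : ∀ v, ∃ i, i ∉ K G v := by
    intro v
    obtain ⟨x, y, hxy⟩ := hG
    by_contra hcon
    push Not at hcon
    have h1 := mem_K.mp (hcon x)
    have h2 := mem_K.mp (hcon y)
    exact hxy ((K_symm h1).trans h2)
  have self : ∀ v, v ∈ K G v := fun v => mem_K.mpr Relation.ReflTransGen.refl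
  obtain ⟨i, hi⟩ := hex a
  have hia : i ≠ a := fun e => hi (e ▸ self a)
  obtain ⟨j, hj⟩ := hex b
  have hjb : j ≠ b := fun e => hj (e ▸ self b)
  have c1 := Kc_card h hia
  rw [Kc_eq hi] at c1
  have c2 : (K G a).card ≤ (K G b).card := by
    rw [c1]
    exact card_le_card (Kc_sub G _ _)
  have c3 : (K G b).card ≤ (K G a).card := by
    obtain ⟨⟨i', hi'⟩, hi''⟩ := τ.surjective ⟨j, hjb⟩
    have e : π i' i' = j := by rw [h.img i' hi', hi'']
    have c4 := Kc_card h hi'
    rw [e, Kc_eq hj] at c4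
    rw [← c4]
    exact card_le_card (Kc_sub G _ _)
  have hbi : b ≠ π i i := by
    rw [← h.root i hia]
    exact fun e => hia ((π i).injective e).symm
  have hj' : π i i ∉ K G b := by
    intro hmem
    have := Kc_lt hbi hmem
    omega
  -- `π i` maps the component of `a` onto the component of `b`
  have hmap : ∀ u, π i u ∈ K G b ↔ u ∈ K G a := by
    intro u
    rw [← Kc_eq hj', ← Kc_eq hi]
    exact Kc_map h hia u
  set σ : V → V := fun x => if x ∈ K G a then π i x else if x ∈ K G b then (π i).symm x else x with hσ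
  have s1 : ∀ x, x ∈ K G a → σ x = π i x ∧ σ x ∈ K G b := by
    intro x hx
    have : σ x = π i x := if_pos hx
    exact ⟨this, by rw [this]; exact (hmap x).mpr hx⟩
  have s2 : ∀ x, x ∉ K G a → x ∈ K G b → σ x = (π i).symm x ∧ σ x ∈ K G a := by
    intro x hx hx'
    have : σ x = (π i).symm x := by
      show (if x ∈ K G a then π i x else if x ∈ K G b then (π i).symm x else x) = _
      rw [if_neg hx, if_pos hx']
    refine ⟨this, ?_⟩
    rw [this, ← hmap, Equiv.apply_symm_apply]
    exact hx'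
  have s3 : ∀ x, x ∉ K G a → x ∉ K G b → σ x = x := by
    intro x hx hx'
    show (if x ∈ K G a then π i x else if x ∈ K G b then (π i).symm x else x) = _
    rw [if_neg hx, if_neg hx']
  have dis : ∀ x, x ∉ K G a → x ∈ K G b → ∀ y, y ∈ K G a → y ∈ K G b → False := by
    intro x hx hx' y hy hy'
    exact hx (K_disj hy hy' ▸ hx')
  have sinj : Function.Injective σ := by
    intro x y hxy
    by_cases hx : x ∈ K G a
    · obtain ⟨x1, x2⟩ := s1 x hx
      by_cases hy : y ∈ K G a
      · rw [x1, (s1 y hy).1] at hxy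
        exact (π i).injective hxy
      · by_cases hy' : y ∈ K G b
        · obtain ⟨y1, y2⟩ := s2 y hy hy'
          exact (dis y hy hy' (σ y) y2 (hxy ▸ x2)).elim
        · rw [s3 y hy hy'] at hxy
          exact (hy' (hxy ▸ x2)).elim
    · by_cases hx' : x ∈ K G b
      · obtain ⟨x1, x2⟩ := s2 x hx hx'
        by_cases hy : y ∈ K G a
        · obtain ⟨y1, y2⟩ := s1 y hy
          exact (dis x hx hx' (σ x) x2 (hxy ▸ y2)).elim
        · by_cases hy' : y ∈ K G b
          · rw [x1, (s2 y hy hy').1] at hxy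
            exact (π i).symm.injective hxy
          · rw [s3 y hy hy'] at hxy
            exact (hy (hxy ▸ x2)).elim
      · rw [s3 x hx hx'] at hxy
        by_cases hy : y ∈ K G a
        · exact (hx' (hxy ▸ (s1 y hy).2)).elim
        · by_cases hy' : y ∈ K G b
          · exact (hx (hxy ▸ (s2 y hy hy').2)).elim
          · rw [s3 y hy hy'] at hxy
            exact hxy
  have hadj : ∀ x y, G.Adj x y → G.Adj (σ x) (σ y) := by
    intro x y hxy
    by_cases hx : x ∈ K G a
    · have hy := (K_closed (v := a) hxy).mp hx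
      rw [(s1 x hx).1, (s1 y hy).1]
      exact (h.adj i hia x y (fun e => hi (e ▸ hx)) (fun e => hi (e ▸ hy))).mpr hxy
    · have hy : y ∉ K G a := fun hy => hx ((K_closed (v := a) hxy).mpr hy)
      by_cases hx' : x ∈ K G b
      · have hy' := (K_closed (v := b) hxy).mp hx'
        rw [(s2 x hx hx').1, (s2 y hy hy').1]
        have q1 : (π i).symm x ≠ i := fun e => hj' (((π i).symm_apply_eq.mp e) ▸ hx')
        have q2 : (π i).symm y ≠ i := fun e => hj' (((π i).symm_apply_eq.mp e) ▸ hy')
        rw [← h.adj i hia _ _ q1 q2, Equiv.apply_symm_apply, Equiv.apply_symm_apply]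
        exact hxy
      · have hy' : y ∉ K G b := fun hy => hx' ((K_closed (v := b) hxy).mpr hy)
        rw [s3 x hx hx', s3 y hy hy']
        exact hxy
  set ρ : Equiv.Perm V := Equiv.ofBijective σ (Finite.injective_iff_bijective.mp sinj) with hρ
  have hρσ : ∀ x, ρ x = σ x := fun x => rfl
  -- an injective homomorphism of a finite graph to itself is an automorphism
  have hiso : ∀ x y, G.Adj (ρ x) (ρ y) ↔ G.Adj x y := by
    have hsub : (univ.filter (fun p : V × V => G.Adj p.1 p.2)).image (fun p => (ρ p.1, ρ p.2)) ⊆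
        univ.filter (fun p : V × V => G.Adj p.1 p.2) := by
      intro p hp
      rw [mem_image] at hp
      obtain ⟨q, hq, rfl⟩ := hp
      rw [mem_filter] at hq ⊢
      exact ⟨mem_univ _, hadj _ _ hq.2⟩
    have hinj : Function.Injective (fun p : V × V => (ρ p.1, ρ p.2)) := by
      rintro ⟨p1, p2⟩ ⟨q1, q2⟩ hpq
      simp only [Prod.mk.injEq] at hpq
      rw [ρ.injective hpq.1, ρ.injective hpq.2]
    have heq := eq_of_subset_of_card_le hsub (by rw [card_image_of_injective _ hinj])
    intro x y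
    constructor
    · intro hxy
      have : (ρ x, ρ y) ∈ univ.filter (fun p : V × V => G.Adj p.1 p.2) :=
        mem_filter.mpr ⟨mem_univ _, hxy⟩
      rw [← heq, mem_image] at this
      obtain ⟨q, hq, he⟩ := this
      rw [mem_filter] at hq
      have : q = (x, y) := hinj he
      rw [this] at hq
      exact hq.2
    · intro hxy
      exact hadj x y hxy
  refine toIso ρ ?_ hiso
  rw [hρσ, (s1 a (self a)).1, h.root i hia]

theorem HH.compl {G : SimpleGraph V} {a b : V} {π : V → Equiv.Perm V}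
    {τ : {v : V // v ≠ a} ≃ {v : V // v ≠ b}} (h : HH G a b π τ) : HH Gᶜ a b π τ := by
  refine ⟨h.root, h.img, fun i hi x y hx hy => ?_⟩
  rw [SimpleGraph.compl_adj, SimpleGraph.compl_adj, h.adj i hi x y hx hy, ne_eq, ne_eq,
    (π i).injective.eq_iff]

theorem from_compl {G : SimpleGraph V} {a b : V} (h : ∃ φ : Gᶜ ≃g Gᶜ, φ a = b) :
    ∃ φ : G ≃g G, φ a = b := by
  obtain ⟨φ, hφ⟩ := h
  refine toIso φ.toEquiv hφ ?_
  intro x y
  have h1 : Gᶜ.Adj (φ x) (φ y) ↔ Gᶜ.Adj x y := φ.map_rel_iff
  rw [SimpleGraph.compl_adj, SimpleGraph.compl_adj] at h1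
  by_cases hxy : x = y
  · subst hxy
    exact ⟨fun h => absurd h (G.loopless.irrefl _), fun h => absurd h (G.loopless.irrefl _)⟩
  · have hne : φ x ≠ φ y := fun e => hxy (φ.injective e)
    have h2 : ¬ G.Adj (φ x) (φ y) ↔ ¬ G.Adj x y :=
      ⟨fun q => (h1.mp ⟨hne, q⟩).2, fun q => (h1.mpr ⟨hxy, q⟩).2⟩
    exact not_iff_not.mp h2

end Run7.h357.RV
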